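import Pool.Agent.helper71.DSW.SpecB

/-! # Project dsw, row DSJ: the first copy is unique -/

set_option autoImplicit false

namespace Pool.Agent.DSW

open Equiv Finset Function Pool.Agent.helper48.PP
open scoped ENNReal Classical

theorem DSJ (hTOT : TOT_stmt) : DSJ_stmt := by
  intro L m m' p E hp0 hp1 hE
  unfold Pr
  have h1 : ∀ A : Finset (Cell L) → Prop,
      ∑ S ∈ (Dom m m').powerset.filter A, p ^ S.card * (1 - p) ^ ((Dom m m').card - S.card) =
      ∑ S ∈ (Dom m m').powerset,
        if A S then p ^ S.card * (1 - p) ^ ((Dom m m').card - S.card) else 0 := by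
    intro A
    rw [Finset.sum_filter]
  rw [h1, Finset.sum_congr rfl fun e _ => h1 (First m m' e), Finset.sum_comm]
  refine Finset.sum_le_sum fun S _ => ?_
  have hw : (0 : ℝ) ≤ p ^ S.card * (1 - p) ^ ((Dom m m').card - S.card) :=
    mul_nonneg (pow_nonneg hp0 _) (pow_nonneg (by linarith) _)
  by_cases h : ∃ e ∈ E, First m m' e S
  · obtain ⟨e, he, hf⟩ := h
    rw [if_pos (show ∃ e : Arr L, Valid m m' e ∧ cells e ⊆ S from ⟨e, hE e he, hf.1⟩)]
    rw [Finset.sum_eq_single e]
    · rw [if_pos hf]
    · intro e' he' hne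
      rw [if_neg]
      intro hf'
      rcases (hTOT L).1 e' e hne with hb | hb
      · exact hf.2 e' (hE e' he') hf'.1 hb
      · exact hf'.2 e (hE e he) hf.1 hb
    · intro hne
      exact absurd he hne
  · rw [Finset.sum_eq_zero]
    · split_ifs
      · exact hw
      · exact le_rfl
    · intro e he
      rw [if_neg]
      intro hf
      exact h ⟨e, he, hf⟩

end Pool.Agent.DSW
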