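import Pool.Agent.helper71.DSW.SpecC

/-! # Project dsw, row NU1: numbers -/

set_option autoImplicit false

namespace Pool.Agent.DSW

open Equiv Finset Function Pool.Agent.helper48.PP
open scoped ENNReal Classical

theorem NU1_sqrt : (1 - 2 * th + 13 / 2 * th ^ 2 - 400 * th ^ 3 : ℝ) ≤
    Real.sqrt (1 - 4 * th + 17 * th ^ 2 - 763 * th ^ 3) := by
  apply Real.le_sqrt_of_sq_le
  unfold th
  norm_num

theorem NU1_exp : (1 - 4 * (16 * (144 * th)) ^ 3 : ℝ) ≤ Real.exp (-4 * (16 * (144 * th)) ^ 3) := by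
  have h := Real.add_one_le_exp (-4 * (16 * (144 * th)) ^ 3)
  linarith

theorem NU1 : NU1_stmt := by
  refine ⟨?_, ?_, ?_, ?_, ?_⟩
  · unfold zz ee th
    norm_num
  · unfold zz th
    norm_num
  · unfold ee th
    norm_num
  · unfold ee th
    norm_num
  · have h1 := NU1_sqrt
    have h2 := NU1_exp
    have a0 : (0 : ℝ) ≤ 1 - 2 * th + 13 / 2 * th ^ 2 - 400 * th ^ 3 := by
      unfold th
      norm_num
    have b0 : (0 : ℝ) ≤ 1 - 4 * (16 * (144 * th)) ^ 3 := by
      unfold th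
      norm_num
    have c0 : (0 : ℝ) ≤ th * zz := by
      unfold zz th
      norm_num
    have d0 : (0 : ℝ) ≤ 1 - th ^ 2 := by
      unfold th
      norm_num
    have h3 : 1 + th ^ 2 / 10 ≤ th * zz * (1 - 2 * th + 13 / 2 * th ^ 2 - 400 * th ^ 3) *
        (1 - th ^ 2) * (1 - 4 * (16 * (144 * th)) ^ 3) := by
      unfold zz th
      norm_num
    refine h3.trans ?_
    have h4 : th * zz * (1 - 2 * th + 13 / 2 * th ^ 2 - 400 * th ^ 3) * (1 - th ^ 2) ≤
        th * zz * Real.sqrt (1 - 4 * th + 17 * th ^ 2 - 763 * th ^ 3) * (1 - th ^ 2) :=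
      mul_le_mul_of_nonneg_right (mul_le_mul_of_nonneg_left h1 c0) d0
    exact mul_le_mul h4 h2 b0 (mul_nonneg (mul_nonneg c0 (Real.sqrt_nonneg _)) d0)

end Pool.Agent.DSW
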